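import Pool.Agent.H16.TG9

set_option autoImplicit false

open Filter Topology Pool.Agent.H16.Cut

namespace Pool.Agent.Results.MP_4b7267_pr.NoCutoff

/-- There are finite connected vertex-transitive graphs `G n` with `|V(G n)| → ∞` and
`t_mix / t_rel → ∞` whose lazy simple random walks have no cutoff in total variation. -/
theorem result : ∃ (V : ℕ → Type) (_ : ∀ n, Fintype (V n)) (_ : ∀ n, DecidableEq (V n))
    (G : ∀ n, SimpleGraph (V n)) (_ : ∀ n, DecidableRel (G n).Adj),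
    (∀ n, (G n).Connected) ∧ (∀ n, IsVertexTransitive (G n)) ∧
    Tendsto (fun n => Fintype.card (V n)) atTop atTop ∧
    (∀ n, ∀ ε : ℝ, 0 < ε → ∃ t, tvDist (lazyGraph (G n)) t ≤ ε) ∧
    Tendsto (fun n => (tMix (lazyGraph (G n)) (1 / 4) : ℝ) / tRel (lazyGraph (G n)))
      atTop atTop ∧
    ¬ (∀ ε : ℝ, 0 < ε → ε < 1 →
      Tendsto (fun n => (tMix (lazyGraph (G n)) ε : ℝ) / (tMix (lazyGraph (G n)) (1 - ε) : ℝ))
        atTop (𝓝 1)) := by
  choose G i1 i2 i3 S hsym h0 hgen hcard h1 h2 h3 h4 h5 h6 h7 h8 using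
    fun n : ℕ => Pool.Agent.H16.TG.disc (n + 10) (by omega)
  have key := no_cutoff G (fun n => Pool.Agent.H16.TG.lz (S n)) h1 h3 h4 h5 h6 h8
  refine ⟨G, i2, i3, fun n => cay (S n) (hsym n) (h0 n), fun n => inferInstance,
    fun n => cay_conn _ _ _ (hgen n), fun n => cay_trans _ _ _, ?_, ?_, ?_, ?_⟩
  · exact tendsto_atTop_mono (fun n => (Nat.le_add_right n 10).trans (hcard n)) tendsto_id
  · intro n ε hε
    rw [lazyGraph_eq]
    obtain ⟨t, ht⟩ := h3 n ε hε
    exact ⟨t, tvDist_le ht⟩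
  · simp only [lazyGraph_eq]
    exact key.1
  · intro hall
    obtain ⟨ε, e1, e2, e3⟩ := key.2
    apply e3
    have := hall ε e1 (by linarith)
    simp only [lazyGraph_eq] at this
    exact this

end Pool.Agent.Results.MP_4b7267_pr.NoCutoff
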